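import Pool.Agent.Y904.GS.Fin

/-!
# Sets of integers without gcd-sunflowers: `|A| ≤ (256 r² (⌊log₂ k⌋ + 1))^k`

If `A` is a finite set of positive integers, all with exactly `k` prime factors counted with
multiplicity, and no `r` members of `A` form a gcd-sunflower, then `|A| ≤ (256 r² (⌊log₂ k⌋ + 1))^k`,
in place of the factor `k!` of the Erdos-Rado argument.

Proof. A weighted choice of one exponent for each prime (probability `2^(-j)` for the exponent `j`) keeps at
least `2^(-k) |A|` members of `A` in which the exponent of a prime is the same in all its multiples;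
for such integers a sunflower of the sets of prime factors is a gcd-sunflower, and the
Alweiss-Lovett-Wu-Zhang method (spread families) is applied to the sets of prime factors of each size.
-/

set_option autoImplicit false

namespace Pool.Agent.Results.MP_47c51c_nt.LogBound

/-- A finite set `S` of positive integers is a gcd-sunflower: all pairs of distinct members have the
same gcd `d > 0`, and every member is `d * b` with `gcd(b, d) = 1`. -/
def IsGcdSunflower (S : Finset ℕ) : Prop :=
  ∃ d : ℕ, 0 < d ∧ (∀ a ∈ S, ∀ b ∈ S, a ≠ b → Nat.gcd a b = d) ∧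
    ∀ a ∈ S, ∃ b : ℕ, a = d * b ∧ Nat.Coprime b d

/-- For all `r ≥ 2` and `k`, every finite set of more than `(256 r² (⌊log₂ k⌋ + 1))^k` positive
integers with `Ω = k` contains `r` members which form a gcd-sunflower. -/
theorem result : ∀ r k : ℕ, 2 ≤ r → ∀ A : Finset ℕ,
    (∀ a ∈ A, 0 < a ∧ ArithmeticFunction.cardFactors a = k) →
    (∀ S ⊆ A, S.card = r → ¬ IsGcdSunflower S) →
    A.card ≤ (256 * r ^ 2 * (Nat.log 2 k + 1)) ^ k :=
  fun _ k hr A hA hfree => Pool.Agent.Y904.GS.bound hr k A hA hfree

end Pool.Agent.Results.MP_47c51c_nt.LogBound
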