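import Pool.Agent.Y904.GS.Eqv

/-!
# The exponential bound for gcd-sunflowers is equivalent to the Erdos-Rado sunflower conjecture

Q1 of MP_47c51c_nt is usually described as a stronger version of the sunflower conjecture. For every number
`r` of petals the two are equivalent, with the base `4 c` for gcd-sunflowers if the base `c ≥ 1` is
admissible for ordinary sunflowers of sets.
-/

set_option autoImplicit false

namespace Pool.Agent.Results.MP_47c51c_nt.SunflowerEquivalence

/-- A finite set `S` of positive integers is a gcd-sunflower: all pairs of distinct members have the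
same gcd `d > 0`, and every member is `d * b` with `gcd(b, d) = 1`. -/
def IsGcdSunflower (S : Finset ℕ) : Prop :=
  ∃ d : ℕ, 0 < d ∧ (∀ a ∈ S, ∀ b ∈ S, a ≠ b → Nat.gcd a b = d) ∧
    ∀ a ∈ S, ∃ b : ℕ, a = d * b ∧ Nat.Coprime b d

/-- A finite family of sets is a sunflower: all pairs of distinct members have the same
intersection. -/
def IsSunflower (G : Finset (Finset ℕ)) : Prop :=
  ∃ Y : Finset ℕ, ∀ S ∈ G, ∀ T ∈ G, S ≠ T → S ∩ T = Y

/-- For all `k`: at most `c ^ k` positive integers with `Ω = k`, if no `r` of them form a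
gcd-sunflower. -/
def GcdBound (r : ℕ) (c : ℝ) : Prop :=
  ∀ (k : ℕ) (A : Finset ℕ), (∀ a ∈ A, 0 < a ∧ ArithmeticFunction.cardFactors a = k) →
    (∀ S ⊆ A, S.card = r → ¬ IsGcdSunflower S) → (A.card : ℝ) ≤ c ^ k

/-- For all `k`: at most `c ^ k` sets of size `k`, if no `r` of them form a sunflower. -/
def SetBound (r : ℕ) (c : ℝ) : Prop :=
  ∀ (k : ℕ) (F : Finset (Finset ℕ)), (∀ S ∈ F, S.card = k) →
    (∀ G ⊆ F, G.card = r → ¬ IsSunflower G) → (F.card : ℝ) ≤ c ^ k

theorem result : ∀ r : ℕ, 2 ≤ r →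
    (∀ c : ℝ, GcdBound r c → SetBound r c) ∧ (∀ c : ℝ, 1 ≤ c → SetBound r c → GcdBound r (4 * c)) ∧
    ((∃ c : ℝ, 0 < c ∧ GcdBound r c) ↔ ∃ c : ℝ, 0 < c ∧ SetBound r c) := by
  intro r hr
  have h1 : ∀ c : ℝ, GcdBound r c → SetBound r c := fun c h => Pool.Agent.Y904.GS.gcd_to_sun h
  have h2 : ∀ c : ℝ, 1 ≤ c → SetBound r c → GcdBound r (4 * c) :=
    fun c hc h => Pool.Agent.Y904.GS.sun_to_gcd hr hc h
  refine ⟨h1, h2, ?_, ?_⟩
  · rintro ⟨c, hc, h⟩
    exact ⟨c, hc, h1 c h⟩
  · rintro ⟨c, hc, h⟩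
    refine ⟨4 * max c 1, by positivity, h2 _ (le_max_right _ _) ?_⟩
    intro k F hF hfree
    exact (h k F hF hfree).trans (pow_le_pow_left₀ hc.le (le_max_left _ _) k)

end Pool.Agent.Results.MP_47c51c_nt.SunflowerEquivalence
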